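import Pool.Agent.Helper32.HB.Tra
import Pool.Agent.Helper32.HB.Sen
import Pool.Agent.Helper32.HB.ValTop
import Pool.Agent.Helper33.HMG.Top
import Pool.Agent.Helper51.HM.ValR
import Pool.Agent.Helper81.HM.Transfer
import Pool.Agent.Helper28.HM.PnPm

/-!
# The consistency of `PN_σ = PM_σ ∩ UN`

The sentence `Sentence univ univ` implies that `PN_σ = PM_σ = PM_σ ∩ UN` holds in all Polish
spaces, and it is true in a countable transitive model of ZFC (a finite support iteration of
Hechler forcing).
-/

set_option autoImplicit false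

namespace Pool.Agent.Results.MP_2087e7_lc.HechlerModel

open MeasureTheory Set Pool.Agent.Helper26.PN Pool.Agent.Helper32.HB

universe u

/-- **Positive answer to Q2.** If the sentence `Sentence univ univ` is true then
`PN_σ = PM_σ = PM_σ ∩ UN` holds in every (perfect) Polish space; and the sentence is true in a
countable transitive model `M` of ZFC: for points and sets of points which are elements of `M`. -/
theorem result :
    (Sentence univ univ →
      ∀ (X : Type u) [TopologicalSpace X] [PolishSpace X] [MeasurableSpace X] [BorelSpace X]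
        (A : Set X), (PNσ A ↔ PMσ A) ∧ (PNσ A ↔ PMσ A ∧ UN A)) ∧
    ∃ M : Set ZFSet.{0}, M.Countable ∧ IsTransModelZFC M ∧ Sentence (realsP M) (setsP M) := by
  constructor
  · intro h X _ _ _ _ A
    have hR := Pool.Agent.Helper33.HM.rStmt_of_val (val_prop_of_sentence h)
    have h1 : PNσ A → PMσ A := Pool.Agent.Helper33.HM.PMσ_of_PNσ X A
    have h2 : PMσ A → PNσ A := fun hA μ _ _ =>
      Pool.Agent.Helper33.HM.null_cover_of_rStmt hR X μ A hA
    have h3 : PNσ A → UN A := by
      intro hA μ m1 m2
      obtain ⟨F, -, hF, hF0⟩ := hA μ m1 m2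
      exact measure_mono_null hF hF0
    exact ⟨⟨h1, h2⟩, fun hA => ⟨h1 hA, h3 hA⟩, fun hA => h2 hA.1⟩
  · exact exists_model val_hechler

end Pool.Agent.Results.MP_2087e7_lc.HechlerModel
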