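import Pool.Agent.Helper26.PN.NotCH
import Pool.Agent.Helper52.MA.MainCH

/-!
# MP_2087e7_lc, Q1: the equality `PN_σ = PM_σ ∩ UN` is not a theorem of ZFC

(a) If the equality holds in a single nonempty perfect Polish space, then every set of at most `ℵ₁`
elements of the Baire space is meager, and in particular `ℵ₁ < 2^{ℵ₀}`.

(b) There is a countable transitive model of ZFC and the Continuum Hypothesis.
-/

set_option autoImplicit false

namespace Pool.Agent.Results.MP_2087e7_lc.NotProvable

open MeasureTheory Set Topology Pool.Agent.Helper26.PN Pool.Agent.Helper52.MA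
open Pool.Agent.Helper32.HB

universe u

/-- **Negative answer to Q1.**  (a) If `PN_σ = PM_σ ∩ UN` holds in one nonempty perfect Polish
space `X`, then every set of at most `ℵ₁` elements of the Baire space is meager, and
`ℵ₁ < 2^{ℵ₀}`.  (b) There is a countable transitive model of ZFC in which `2^{ℵ₀} = ℵ₁`. -/
theorem result :
    (∀ (X : Type u) [TopologicalSpace X] [PolishSpace X] [PerfectSpace X] [Nonempty X]
      [MeasurableSpace X] [BorelSpace X], (∀ A : Set X, PNσ A ↔ (PMσ A ∧ UN A)) →
        (∀ Y : Set (ℕ → ℕ), Cardinal.mk Y ≤ Cardinal.aleph 1 → IsMeagre Y) ∧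
          (Cardinal.aleph 1 : Cardinal.{0}) < Cardinal.continuum) ∧
    ∃ M : Set ZFSet.{0}, M.Countable ∧ IsTransModelZFC M ∧ CHModel M :=
  ⟨fun X _ _ _ _ _ _ h => NotCH.equality_implies X h, exists_ch_model⟩

end Pool.Agent.Results.MP_2087e7_lc.NotProvable
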